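import Pool.Agent.Helper45.LinK.GoalsN
import Pool.Agent.Helper34.Lin.Dkmet

/-! # Packet ORBF: compact Kähler quotients of `D × ℂᵏ` with flat fibres -/

open Complex Metric Set Filter Topology MeasureTheory
open scoped ContDiff ComplexConjugate ComplexOrder Manifold

namespace Pool.Agent.Helper93.LinK

open Pool.Agent.Helper45.LinK Pool.Agent.Helper95.Lin Pool.Agent.Helper16.Abund
  Pool.Agent.Helper92.Orb Pool.Agent.Helper34.Lin

universe u v

section tw

/-- The action of `Γ` on `M`, transported by `e`. -/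
@[reducible] def twAct {Γ : Type u} [Group Γ] {M : Type v} [TopologicalSpace M] [MulAction Γ M]
    (e : M ≃ₜ M) : MulAction Γ M where
  smul γ y := e (γ • e.symm y)
  one_smul y := by
    change e ((1 : Γ) • e.symm y) = y
    rw [one_smul, e.apply_symm_apply]
  mul_smul γ γ' y := by
    change e ((γ * γ') • e.symm y) = e (γ • e.symm (e (γ' • e.symm y)))
    rw [mul_smul, e.symm_apply_apply]

variable {n : ℕ} {Γ : Type u} [Group Γ] {M : Type v} [TopologicalSpace M]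
  [ChartedSpace (Fin n → ℂ) M] [MulAction Γ M]

theorem orbAction_tw (hΓ : OrbAction n Γ M) (e : M ≃ₜ M)
    (he : MDifferentiable 𝓘(ℂ, Fin n → ℂ) 𝓘(ℂ, Fin n → ℂ) e)
    (he' : MDifferentiable 𝓘(ℂ, Fin n → ℂ) 𝓘(ℂ, Fin n → ℂ) e.symm) :
    @OrbAction n Γ M _ (twAct e) _ _ := by
  refine @OrbAction.mk n Γ M _ (twAct e) _ _ ?_ ?_ ?_
  · intro γ
    change MDifferentiable 𝓘(ℂ, Fin n → ℂ) 𝓘(ℂ, Fin n → ℂ) (fun x : M => e (γ • e.symm x))
    exact he.comp ((hΓ.holo γ).comp he')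
  · intro x
    obtain ⟨U, hU, hf⟩ := hΓ.proper (e.symm x)
    refine ⟨e.symm ⁻¹' U, e.symm.continuous.continuousAt.preimage_mem_nhds hU, hf.subset ?_⟩
    rintro γ ⟨y, hy, hy'⟩
    refine ⟨e.symm y, hy, ?_⟩
    have h1 : e.symm (e (γ • e.symm y)) ∈ U := hy'
    rwa [e.symm_apply_apply] at h1
  · obtain ⟨K, hK, hc⟩ := hΓ.cocompact
    refine ⟨e '' K, hK.image e.continuous, fun x => ?_⟩
    obtain ⟨γ, hγ⟩ := hc (e.symm x)
    exact ⟨γ, _, hγ, rfl⟩

theorem finite_tw (hpr : ∀ K : Set M, IsCompact K → {γ : Γ | ∃ y ∈ K, γ • y ∈ K}.Finite)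
    (e : M ≃ₜ M) (K : Set M) (hK : IsCompact K) :
    {γ : Γ | ∃ y ∈ K, e (γ • e.symm y) ∈ K}.Finite := by
  refine (hpr _ (hK.image e.symm.continuous)).subset ?_
  rintro γ ⟨y, hy, hy'⟩
  refine ⟨e.symm y, ⟨y, hy, rfl⟩, ⟨_, hy', ?_⟩⟩
  rw [e.symm_apply_apply]

end tw

section pull

variable {n : ℕ} {M : Type v} [TopologicalSpace M] [ChartedSpace (Fin n → ℂ) M]

theorem dP_id (y : M) (u : Fin n → ℂ) : dP (n := n) (id : M → M) y u = u := by
  unfold dP
  rw [mfderiv_id]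
  rfl

theorem dP_comp {P Q : M → M} (hP : MDifferentiable 𝓘(ℂ, Fin n → ℂ) 𝓘(ℂ, Fin n → ℂ) P)
    (hQ : MDifferentiable 𝓘(ℂ, Fin n → ℂ) 𝓘(ℂ, Fin n → ℂ) Q) (y : M) (u : Fin n → ℂ) :
    dP (n := n) (P ∘ Q) y u = dP (n := n) P (Q y) (dP (n := n) Q y u) := by
  unfold dP
  rw [mfderiv_comp y (hP (Q y)) (hQ y)]
  rfl

theorem kahler_pull {P : M → M} (hPd : MDifferentiable 𝓘(ℂ, Fin n → ℂ) 𝓘(ℂ, Fin n → ℂ) P)
    (hinj : ∀ y, Function.Injective (dP (n := n) P y))
    {g : M → Matrix (Fin n) (Fin n) ℂ} (hg : KahlerMetric n M g) :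
    KahlerMetric n M (fun y => pullM (dP P y) (g (P y))) := by
  refine ⟨fun y => pullM_posDef _ (hinj y) (hg.1 _), ?_⟩
  intro V ψ hψ
  have hcomp : HoloOn n (P ∘ ψ) V :=
    ⟨hψ.1, fun z hz => (hPd (ψ z)).comp_mdifferentiableWithinAt z (hψ.2 z hz)⟩
  obtain ⟨hs, hc⟩ := hg.2 V (P ∘ ψ) hcomp
  have hat : ∀ z ∈ V, MDifferentiableAt 𝓘(ℂ, Fin n → ℂ) 𝓘(ℂ, Fin n → ℂ) ψ z := fun z hz =>
    (hψ.2 z hz).mdifferentiableAt (hψ.1.mem_nhds hz)
  have heq : ∀ z ∈ V, ∀ u v, metricForm n (fun y => pullM (dP P y) (g (P y))) ψ z u v =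
      metricForm n g (P ∘ ψ) z u v := by
    intro z hz u v
    unfold metricForm
    rw [herm_pullM, dvec_comp hPd (hat z hz), dvec_comp hPd (hat z hz)]
    rfl
  have hfd : ∀ z ∈ V, ∀ u v, fderiv ℝ (fun z => metricForm n
      (fun y => pullM (dP P y) (g (P y))) ψ z u v) z =
      fderiv ℝ (fun z => metricForm n g (P ∘ ψ) z u v) z := by
    intro z hz u v
    apply Filter.EventuallyEq.fderiv_eq
    filter_upwards [hψ.1.mem_nhds hz] with w hw
    exact heq w hw u v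
  constructor
  · intro u v
    exact (hs u v).congr fun z hz => heq z hz u v
  · intro z hz u v w
    rw [hfd z hz, hfd z hz, hfd z hz]
    exact hc z hz u v w

theorem inv_pull {P T T' : M → M} (hP : MDifferentiable 𝓘(ℂ, Fin n → ℂ) 𝓘(ℂ, Fin n → ℂ) P)
    (hT : MDifferentiable 𝓘(ℂ, Fin n → ℂ) 𝓘(ℂ, Fin n → ℂ) T)
    (hT' : MDifferentiable 𝓘(ℂ, Fin n → ℂ) 𝓘(ℂ, Fin n → ℂ) T')
    (hc : ∀ y, P (T' y) = T (P y))
    {g : M → Matrix (Fin n) (Fin n) ℂ} (hg : InvMetric n g T) :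
    InvMetric n (fun y => pullM (dP P y) (g (P y))) T' := by
  intro y u v
  have h1 : ∀ w, dP (n := n) P (T' y) (tvec n T' y w) = tvec n T (P y) (dP (n := n) P y w) := by
    intro w
    have e1 := dP_comp (n := n) hP hT' y w
    have e2 := dP_comp (n := n) hT hP y w
    have e3 : P ∘ T' = T ∘ P := funext hc
    rw [e3] at e1
    rw [e1] at e2
    exact e2
  simp only
  rw [herm_pullM, herm_pullM, h1, h1, hc]
  exact hg (P y) _ _

end pull

theorem base_vert {b k : ℕ} (u : Cn k) : base (vert (b := b) u) = 0 := by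
  funext i
  simp [base, vert]

theorem append_base_fib {b k : ℕ} (v : Cn (b + k)) : Fin.append (base v) (fib v) = v := by
  funext i
  refine Fin.addCases (fun i => ?_) (fun i => ?_) i
  · simp [base]
  · simp [fib]

theorem base_append {b k : ℕ} (z : Cn b) (w : Cn k) : base (Fin.append z w) = z := by
  funext i
  simp [base]

theorem fib_append {b k : ℕ} (z : Cn b) (w : Cn k) : fib (Fin.append z w) = w := by
  funext i
  simp [fib]

/-- The derivative of a fibre preserving map. -/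
theorem base_fderiv {b k : ℕ} {D : Set (Cn b)} (hD : IsOpen D) {Ψ : Cn (b + k) → Cn (b + k)}
    (hΨ : DifferentiableOn ℂ Ψ (tubeK D k)) (hb : ∀ v ∈ tubeK D k, base (Ψ v) = base v)
    {v : Cn (b + k)} (hv : v ∈ tubeK D k) (ξ : Cn (b + k)) :
    base (fderiv ℂ Ψ v ξ) = base ξ := by
  have hopen : IsOpen (tubeK D k) := hD.preimage continuous_base
  have hd : DifferentiableAt ℂ Ψ v := (hΨ v hv).differentiableAt (hopen.mem_nhds hv)
  funext i
  have h1 : HasFDerivAt (fun x : Cn (b + k) => Ψ x (Fin.castAdd k i))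
      ((ContinuousLinearMap.proj (R := ℂ) (φ := fun _ => ℂ) (Fin.castAdd k i)).comp
        (fderiv ℂ Ψ v)) v :=
    (ContinuousLinearMap.proj (R := ℂ) (φ := fun _ => ℂ)
      (Fin.castAdd k i)).hasFDerivAt.comp v hd.hasFDerivAt
  have h2 : HasFDerivAt (fun x : Cn (b + k) => x (Fin.castAdd k i))
      (ContinuousLinearMap.proj (R := ℂ) (φ := fun _ => ℂ) (Fin.castAdd k i)) v :=
    (ContinuousLinearMap.proj (R := ℂ) (φ := fun _ => ℂ) (Fin.castAdd k i)).hasFDerivAt
  have h3 : (fun x : Cn (b + k) => Ψ x (Fin.castAdd k i)) =ᶠ[𝓝 v]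
      fun x : Cn (b + k) => x (Fin.castAdd k i) := by
    filter_upwards [hopen.mem_nhds hv] with x hx
    exact congrFun (hb x hx) i
  have h4 := (h1.congr_of_eventuallyEq h3.symm).unique h2
  have h5 := DFunLike.congr_fun h4 ξ
  exact h5

/-- Packet ORBF. -/
theorem orbf (hORBK : S_ORBK.{u}) (hKFM : S_KFM) (hFLAT : S_FLAT) (hTUBM : S_TUBM)
    (hORBT : S_ORBT.{u}) : S_ORBF.{u} := by
  classical
  intro b k D hD hDc hDb Γ _ _ hΓ hpr hK
  obtain ⟨h, hh, hinv, hflat⟩ := hK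
  -- the image of `Γ` in the permutations of `D × ℂᵏ`
  let Γ' : Subgroup (Equiv.Perm (TorTube hD k)) := (MulAction.toPermHom Γ (TorTube hD k)).range
  have hmem : ∀ γ : Γ, MulAction.toPermHom Γ (TorTube hD k) γ ∈ Γ' := fun γ => ⟨γ, rfl⟩
  have hex : ∀ γ' : Γ', ∃ γ : Γ, ∀ y : TorTube hD k, γ' • y = γ • y := by
    rintro ⟨_, γ, rfl⟩
    exact ⟨γ, fun y => rfl⟩
  have hfin : ∀ U : Set (TorTube hD k), {γ : Γ | ∃ y ∈ U, γ • y ∈ U}.Finite →
      {γ' : Γ' | ∃ y ∈ U, γ' • y ∈ U}.Finite := by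
    intro U hU
    refine (hU.image fun γ : Γ => (⟨_, hmem γ⟩ : Γ')).subset ?_
    rintro ⟨_, γ, rfl⟩ ⟨y, hy, hy'⟩
    exact ⟨γ, ⟨y, hy, hy'⟩, rfl⟩
  have hΓ' : OrbAction (b + k) Γ' (TorTube hD k) := by
    refine ⟨fun γ' => ?_, fun x => ?_, ?_⟩
    · obtain ⟨γ, hγ⟩ := hex γ'
      have e : (fun x : TorTube hD k => γ' • x) = fun x => γ • x := funext hγ
      rw [e]
      exact hΓ.holo γ
    · obtain ⟨U, hU, h⟩ := hΓ.proper x
      exact ⟨U, hU, hfin U h⟩
    · obtain ⟨K, hK, h⟩ := hΓ.cocompact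
      refine ⟨K, hK, fun x => ?_⟩
      obtain ⟨γ, hγ⟩ := h x
      exact ⟨⟨_, hmem γ⟩, hγ⟩
  obtain ⟨F, H, hKA, hF, hH⟩ := hKFM hD hDc Γ' hΓ' (fun K hK => hfin K (hpr K hK)) h hh
    (fun γ' => by
      obtain ⟨γ, hγ⟩ := hex γ'
      have e : (fun x : TorTube hD k => γ' • x) = fun x => γ • x := funext hγ
      rw [e]
      exact hinv γ)
  have hFM : FlatM D H := by
    intro z hz
    obtain ⟨Φ, Φ', h1, h2, h3, h4, h5⟩ := hflat z hz
    refine ⟨Φ, Φ', h1, h2, h3, h4, fun w u v => ?_⟩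
    have hmem' : (Fin.append z w : Cn (b + k)) ∈ tube D hD k := by
      change base (Fin.append z w) ∈ D
      rw [base_append]
      exact hz
    let y : TorTube hD k := (⟨Fin.append z w, hmem'⟩ : tube D hD k)
    have hy : tvK y = Fin.append z w := rfl
    have hyb : base (tvK y) = z := by rw [hy, base_append]
    have h6 := h5 y hyb u v
    rw [← hH y, hy, fib_append] at h6
    exact h6
  obtain ⟨Ψ, Ψ', hB, hC⟩ := hFLAT ⟨hD, hDc, hDb⟩ hKA hFM
  obtain ⟨e, he1, he2, he3, he4, he5⟩ := hTUBM hD Ψ Ψ' hB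
  have htv : ∀ y : TorTube hD k, tvK y ∈ tubeK D k := fun y => y.2
  -- the pulled back metric
  have hcomp1 : ∀ (y : TorTube hD k) (u : Cn (b + k)),
      dP (n := b + k) e (e.symm y) (dP (n := b + k) e.symm y u) = u := by
    intro y u
    have h1 := dP_comp (n := b + k) he3 he4 y u
    have h2 : (e : TorTube hD k → TorTube hD k) ∘ e.symm = id := by
      funext y
      simp
    rw [h2, dP_id] at h1
    exact h1.symm
  have hinj : ∀ y : TorTube hD k, Function.Injective (dP (n := b + k) e.symm y) := by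
    intro y u v huv
    rw [← hcomp1 y u, ← hcomp1 y v, huv]
  have hh' : KahlerMetric (b + k) (TorTube hD k)
      (fun y => pullM (dP (n := b + k) e.symm y) (h (e.symm y))) := kahler_pull he4 hinj hh
  have hinv' : ∀ γ : Γ, InvMetric (b + k)
      (fun y => pullM (dP (n := b + k) e.symm y) (h (e.symm y)))
      (fun y : TorTube hD k => e (γ • e.symm y)) := by
    intro γ
    refine inv_pull he4 (hΓ.holo γ) (he3.comp ((hΓ.holo γ).comp he4)) (fun y => ?_) (hinv γ)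
    simp
  have hQC : QCFib hD (fun y => pullM (dP (n := b + k) e.symm y) (h (e.symm y))) := by
    intro K hKD hKc
    obtain ⟨C, hC0, hC'⟩ := hC K hKD hKc
    refine ⟨C, hC0, fun y hy u u' huu => ?_⟩
    have hx : base (tvK (e.symm y)) = base (tvK y) := by
      rw [he2]
      exact hB.bas' _ (htv y)
    have hkey : ∀ w : Cn k, ∃ a : Cn k, dP (n := b + k) e.symm y (vert w) = vert a ∧
        fderiv ℂ Ψ (tvK (e.symm y)) (vert a) = vert w := by
      intro w
      have h1 : fderiv ℂ Ψ (tvK (e.symm y)) (dP (n := b + k) e.symm y (vert w)) = vert w := by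
        rw [← he5]
        exact hcomp1 y (vert w)
      have h2 := base_fderiv hD hB.holo hB.bas (htv (e.symm y))
        (dP (n := b + k) e.symm y (vert w))
      rw [h1, base_vert] at h2
      have h3 : dP (n := b + k) e.symm y (vert w) =
          vert (fib (dP (n := b + k) e.symm y (vert w))) := by
        conv_lhs => rw [← append_base_fib (dP (n := b + k) e.symm y (vert w)), ← h2]
        rfl
      refine ⟨_, h3, ?_⟩
      rw [← h3]
      exact h1
    obtain ⟨a, ha1, ha2⟩ := hkey u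
    obtain ⟨a', ha1', ha2'⟩ := hkey u'
    have hn : ∀ w : Cn k, ‖(vert w : Cn (b + k))‖ = ‖w‖ := by
      intro w
      apply le_antisymm
      · refine (pi_norm_le_iff_of_nonneg (norm_nonneg _)).2 fun i => ?_
        refine Fin.addCases (fun i => ?_) (fun i => ?_) i
        · simp [vert]
        · simp only [vert, Fin.append_right]
          exact norm_le_pi_norm w i
      · refine (pi_norm_le_iff_of_nonneg (norm_nonneg _)).2 fun i => ?_
        have h1 := norm_le_pi_norm (vert w : Cn (b + k)) (Fin.natAdd b i)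
        simpa only [vert, Fin.append_right] using h1
    have h1 := hC' (tvK (e.symm y)) (by rw [hx]; exact hy) a a' (by rw [ha2, ha2', hn, hn, huu])
    simp only
    rw [herm_pullM, herm_pullM, ha1, ha1']
    rw [hH] at h1
    exact h1
  have hΓ2 := orbAction_tw hΓ e he3 he4
  obtain ⟨⟨Λ, hΛ, hcont⟩, hsemi⟩ := @hORBK b k D hD hDc hDb Γ _ (twAct e) hΓ2
    (fun K hK => finite_tw hpr e K hK) ⟨_, hh', hinv', hQC⟩
  refine ⟨⟨e, he3, he4, fun y => ?_, Λ, hΛ, fun m => ?_⟩, ?_⟩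
  · rw [he1]
    exact hB.bas _ (htv y)
  · obtain ⟨γ, hγ⟩ := hcont m
    refine ⟨γ, fun y => ?_⟩
    have h1 : e (γ • e.symm (e y)) = latShift hD Λ m (e y) := hγ (e y)
    rwa [e.symm_apply_apply] at h1
  · refine @hORBT (b + k) Γ _ (TorTube hD k) (TorTube hD k) _ _ _ _ _ _ _ (twAct e) e he3 he4
      hΓ.holo (@OrbAction.holo _ _ _ _ (twAct e) _ _ hΓ2) (fun γ x => ?_) hsemi
    change e (γ • x) = e (γ • e.symm (e x))
    rw [e.symm_apply_apply]

end Pool.Agent.Helper93.LinK
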